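import Mathlib
import Pool.Agent.Lib.Pe1e815.Small

/-!
# Integrality of normalised partial sums of two Ramanujan-type series (full answer)
-/

set_option autoImplicit false

namespace Pool.Agent.Results.MP_e1e815_nt.IntegralityFull

open Nat Pool.Agent.Lib.Pe1e815

/-- `a_n = 1/(n(2n+1)C(2n,n)) ∑_{j<n} 216^{n-1-j} (6j+1) C(2j,j)^2 C(3j,j)`. -/
def a (n : ℕ) : ℚ :=
  1 / ((n : ℚ) * (2 * n + 1) * ((2 * n).choose n : ℚ)) *
    ∑ j ∈ Finset.range n, (216 : ℚ) ^ (n - 1 - j) * (6 * j + 1) * ((2 * j).choose j : ℚ) ^ 2 *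
      ((3 * j).choose j : ℚ)

/-- `b_n = 1/(2n(2n+1)C(2n,n)) ∑_{j<n} 2304^{n-1-j} (8j+1) (4j)!/(j!)^4`. -/
def b (n : ℕ) : ℚ :=
  1 / (2 * (n : ℚ) * (2 * n + 1) * ((2 * n).choose n : ℚ)) *
    ∑ j ∈ Finset.range n, (2304 : ℚ) ^ (n - 1 - j) * (8 * j + 1) *
      (((4 * j)! : ℚ) / ((j ! : ℚ) ^ 4))

lemma a_eq (n : ℕ) : a n = (AN n : ℚ) / (DN n : ℚ) := by
  rw [← sumA_eq_cast]
  unfold a DN sumA
  push_cast
  ring

lemma b_eq (n : ℕ) : b n = (BN n : ℚ) / ((2 * DN n : ℕ) : ℚ) := by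
  rw [← sumB_eq_cast]
  unfold b DN sumB
  push_cast
  ring

lemma five_le {p : ℕ} (hp : p.Prime) (h2 : p ≠ 2) (h3 : p ≠ 3) : 5 ≤ p := by
  have h1 := hp.two_le
  have h4 : p ≠ 4 := by
    rintro rfl
    exact absurd hp (by norm_num)
  omega

lemma strip_two {p k D : ℕ} (hp : p.Prime) (h2 : p ≠ 2) (h : p ^ k ∣ 2 * D) : p ^ k ∣ D := by
  refine Nat.Coprime.dvd_of_dvd_mul_left ?_ h
  exact Nat.Coprime.pow_left k ((Nat.coprime_primes hp Nat.prime_two).mpr h2)

lemma int_of_dvd {A D : ℕ} (hD : 0 < D) (h : D ∣ A) : ∃ z : ℤ, (A : ℚ) / (D : ℚ) = z := by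
  obtain ⟨c, rfl⟩ := h
  refine ⟨c, ?_⟩
  have : (D : ℚ) ≠ 0 := by exact_mod_cast hD.ne'
  push_cast
  field_simp

/-- **Full answer to Q1 (affirmative).** For every `n > 1`: if `2n+1` is not a power of `3` then
`a_n` and `b_n` are integers; if `2n+1` is a power of `3` then `3a_n` and `3b_n` are integers not
divisible by `3`. -/
theorem result : ∀ n : ℕ, 1 < n →
    ((¬ ∃ m : ℕ, 2 * n + 1 = 3 ^ m) → (∃ z : ℤ, a n = z) ∧ (∃ z : ℤ, b n = z)) ∧
    ((∃ m : ℕ, 2 * n + 1 = 3 ^ m) →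
      (∃ z : ℤ, 3 * a n = z ∧ ¬ (3 : ℤ) ∣ z) ∧ (∃ z : ℤ, 3 * b n = z ∧ ¬ (3 : ℤ) ∣ z)) := by
  intro n hn
  have hD := DN_pos n (by omega)
  have hD2 : 0 < 2 * DN n := by omega
  refine ⟨?_, ?_⟩
  · intro hp3
    refine ⟨?_, ?_⟩
    · rw [a_eq]
      refine int_of_dvd hD ?_
      rw [Nat.dvd_iff_prime_pow_dvd_dvd]
      intro p k hp hk
      haveI : Fact p.Prime := ⟨hp⟩
      rcases eq_or_ne p 2 with rfl | h2
      · exact two_A n hn k hk
      rcases eq_or_ne p 3 with rfl | h3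
      · exact three_A n hn hp3 k hk
      exact bigA p n (five_le hp h2 h3) (by omega) k hk
    · rw [b_eq]
      refine int_of_dvd hD2 ?_
      rw [Nat.dvd_iff_prime_pow_dvd_dvd]
      intro p k hp hk
      haveI : Fact p.Prime := ⟨hp⟩
      rcases eq_or_ne p 2 with rfl | h2
      · exact two_B n hn k hk
      have hk' := strip_two hp h2 hk
      rcases eq_or_ne p 3 with rfl | h3
      · exact three_B n hn hp3 k hk'
      exact bigB p n (five_le hp h2 h3) (by omega) k hk'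
  · intro hp3
    obtain ⟨hA1, hA2⟩ := three_A' n hn hp3
    obtain ⟨hB1, hB2⟩ := three_B' n hn hp3
    have hDq : (DN n : ℚ) ≠ 0 := by exact_mod_cast hD.ne'
    refine ⟨?_, ?_⟩
    · have hdvd : DN n ∣ 3 * AN n := by
        rw [Nat.dvd_iff_prime_pow_dvd_dvd]
        intro p k hp hk
        haveI : Fact p.Prime := ⟨hp⟩
        rcases eq_or_ne p 2 with rfl | h2
        · exact Dvd.dvd.mul_left (two_A n hn k hk) 3
        rcases eq_or_ne p 3 with rfl | h3
        · exact hA1 k hk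
        exact Dvd.dvd.mul_left (bigA p n (five_le hp h2 h3) (by omega) k hk) 3
      obtain ⟨c, hc⟩ := hdvd
      refine ⟨c, ?_, ?_⟩
      · rw [a_eq]
        have : (3 : ℚ) * (AN n : ℚ) = (DN n : ℚ) * (c : ℚ) := by exact_mod_cast hc
        push_cast
        rw [mul_div_assoc', this]
        field_simp
      · intro h3
        have h3' : 3 ∣ c := by exact_mod_cast h3
        obtain ⟨d, rfl⟩ := h3'
        apply hA2
        have : AN n = DN n * d := by
          have : 3 * AN n = 3 * (DN n * d) := by rw [hc]; ring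
          omega
        rw [this]
        exact Dvd.dvd.mul_right pow_padicValNat_dvd d
    · have hdvd : 2 * DN n ∣ 3 * BN n := by
        rw [Nat.dvd_iff_prime_pow_dvd_dvd]
        intro p k hp hk
        haveI : Fact p.Prime := ⟨hp⟩
        rcases eq_or_ne p 2 with rfl | h2
        · exact Dvd.dvd.mul_left (two_B n hn k hk) 3
        have hk' := strip_two hp h2 hk
        rcases eq_or_ne p 3 with rfl | h3
        · exact hB1 k hk'
        exact Dvd.dvd.mul_left (bigB p n (five_le hp h2 h3) (by omega) k hk') 3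
      obtain ⟨c, hc⟩ := hdvd
      refine ⟨c, ?_, ?_⟩
      · rw [b_eq]
        have : (3 : ℚ) * (BN n : ℚ) = 2 * (DN n : ℚ) * (c : ℚ) := by exact_mod_cast hc
        push_cast
        rw [mul_div_assoc', this]
        field_simp
      · intro h3
        have h3' : 3 ∣ c := by exact_mod_cast h3
        obtain ⟨d, rfl⟩ := h3'
        apply hB2
        have : BN n = 2 * DN n * d := by
          have : 3 * BN n = 3 * (2 * DN n * d) := by rw [hc]; ring
          omega
        rw [this]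
        have h4 : 3 ^ padicValNat 3 (DN n) ∣ DN n := pow_padicValNat_dvd
        exact Dvd.dvd.mul_right (Dvd.dvd.mul_left h4 2) d

end Pool.Agent.Results.MP_e1e815_nt.IntegralityFull
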